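import Pool.Agent.LRM.Fin328

/-! # Dependent choice and an inaccessible Theta in L(R) do not imply determinacy
(problem MP_328cd5_lc, negative answer to Q1, relative to a Mahlo cardinal)

The proof is in `Pool.Agent.LRM.Fin328` (`final_mahlo`). -/

set_option autoImplicit false

namespace Pool.Agent.Results.MP_328cd5_lc.ThetaInaccessibleNotAD

/-- If there is a Mahlo cardinal then there is a countable transitive model of ZFC such that its
`L(ℝ)` satisfies dependent choice and `Θ` is inaccessible, but the axiom of determinacy fails. -/
theorem result (h : ∃ κ : Cardinal.{0}, LBB.IsMahlo κ) : LRS.Final := LRT.final_mahlo h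

end Pool.Agent.Results.MP_328cd5_lc.ThetaInaccessibleNotAD
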